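import Mathlib

/-!
# The Hurewicz scheme for a coanalytic set which is not `Gδ`
-/

set_option linter.style.haveILetI false

open Set Filter Topology MeasureTheory

namespace Pool.Agent.X218.HU

/-- Initial segments of a branch. -/
def ini (b : ℕ → ℕ) (k : ℕ) : List ℕ := (List.range k).map b

theorem ini_succ (b : ℕ → ℕ) (k : ℕ) : ini b (k + 1) = ini b k ++ [b k] := by
  simp [ini, List.range_succ]

theorem isClosed_agree (a : ℕ → ℕ) (i : ℕ) : IsClosed {w : ℕ → ℕ | ∀ k < i, w k = a k} := by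
  have : {w : ℕ → ℕ | ∀ k < i, w k = a k} = ⋂ k, ⋂ (_ : k < i), (fun w : ℕ → ℕ => w k) ⁻¹' {a k} := by
    ext w; simp
  rw [this]
  exact isClosed_iInter fun k => isClosed_iInter fun _ =>
    (isClosed_discrete _).preimage (continuous_apply k)

theorem isOpen_agree (a : ℕ → ℕ) (i : ℕ) : IsOpen {w : ℕ → ℕ | ∀ k < i, w k = a k} := by
  have : {w : ℕ → ℕ | ∀ k < i, w k = a k} =
      ⋂ k ∈ Finset.range i, (fun w : ℕ → ℕ => w k) ⁻¹' {a k} := by
    ext w; simp
  rw [this]
  exact isOpen_biInter_finset fun k _ => (isOpen_discrete _).preimage (continuous_apply k)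

/-- Continuity in terms of cylinders. -/
theorem cont_cyl {f : (ℕ → ℕ) → (ℕ → ℕ)} (hf : Continuous f) (z a : ℕ → ℕ) (i : ℕ)
    (h : ∀ k < i, f z k = a k) (n0 : ℕ) :
    ∃ n, n0 < n ∧ ∀ y ∈ PiNat.cylinder z n, ∀ k < i, f y k = a k := by
  have h1 : IsOpen (f ⁻¹' {w : ℕ → ℕ | ∀ k < i, w k = a k}) := (isOpen_agree a i).preimage hf
  obtain ⟨_, ⟨x, n, rfl⟩, hx1, hx2⟩ :=
    (PiNat.isTopologicalBasis_cylinders (fun _ => ℕ)).exists_subset_of_mem_open (a := z)
      (show z ∈ f ⁻¹' {w : ℕ → ℕ | ∀ k < i, w k = a k} from h) h1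
  have h2 : PiNat.cylinder z n = PiNat.cylinder x n := PiNat.mem_cylinder_iff_eq.1 hx1
  refine ⟨max n (n0 + 1), lt_of_lt_of_le (Nat.lt_succ_self _) (le_max_right _ _), fun y hy => ?_⟩
  have h3 : y ∈ PiNat.cylinder x n := h2 ▸ PiNat.cylinder_anti z (le_max_left _ _) hy
  exact hx2 h3

variable {A : Set (ℕ → ℕ)} {f : (ℕ → ℕ) → (ℕ → ℕ)}

/-- `f '' Z` is separated from `A` by (the complement of) a `Gδ` set. -/
def Sep (A : Set (ℕ → ℕ)) (f : (ℕ → ℕ) → (ℕ → ℕ)) (Z : Set (ℕ → ℕ)) : Prop :=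
  ∃ G : Set (ℕ → ℕ), IsGδ G ∧ A ⊆ G ∧ ∀ z ∈ Z, f z ∉ G

theorem Sep.mono {Z Z' : Set (ℕ → ℕ)} (h : Sep A f Z) (hZ : Z' ⊆ Z) : Sep A f Z' := by
  obtain ⟨G, h1, h2, h3⟩ := h
  exact ⟨G, h1, h2, fun z hz => h3 z (hZ hz)⟩

theorem Sep.iUnion {ι : Type} [Countable ι] {Z : ι → Set (ℕ → ℕ)} (h : ∀ i, Sep A f (Z i)) :
    Sep A f (⋃ i, Z i) := by
  choose G h1 h2 h3 using h
  refine ⟨⋂ i, G i, IsGδ.iInter h1, subset_iInter h2, fun z hz hzG => ?_⟩
  obtain ⟨i, hi⟩ := mem_iUnion.1 hz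
  exact h3 i z hi (mem_iInter.1 hzG i)

theorem Sep.union {Z Z' : Set (ℕ → ℕ)} (h : Sep A f Z) (h' : Sep A f Z') : Sep A f (Z ∪ Z') := by
  rw [union_eq_iUnion]
  exact Sep.iUnion (fun b => by cases b <;> assumption)

theorem Sep.of_closure {Z : Set (ℕ → ℕ)} (h : Disjoint (closure (f '' Z)) A) : Sep A f Z := by
  refine ⟨(closure (f '' Z))ᶜ, isClosed_closure.isOpen_compl.isGδ, ?_, fun z hz h1 => ?_⟩
  · intro a ha h1
    exact disjoint_left.1 h h1 ha
  · exact h1 (subset_closure (mem_image_of_mem f hz))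

/-- The perfect kernel. -/
def ker (A : Set (ℕ → ℕ)) (f : (ℕ → ℕ) → (ℕ → ℕ)) : Set (ℕ → ℕ) :=
  {z | ∀ n, ¬ Sep A f (PiNat.cylinder z n)}

theorem sep_ker_compl : Sep A f (ker A f)ᶜ := by
  have h1 : Sep A f (⋃ s : {s : List ℕ // Sep A f {y | ini y s.length = s}},
      {y | ini y s.1.length = s.1}) := Sep.iUnion fun s => s.2
  refine h1.mono ?_
  intro z hz
  have hz' : ¬ ∀ n, ¬ Sep A f (PiNat.cylinder z n) := hz
  push Not at hz'
  obtain ⟨n, hn⟩ := hz'
  have h2 : {y | ini y (ini z n).length = ini z n} = PiNat.cylinder z n := by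
    ext y
    have hl : (ini z n).length = n := by simp [ini]
    rw [mem_setOf_eq, hl, PiNat.mem_cylinder_iff]
    constructor
    · intro h i hi
      have h3 := congrArg (fun l => l[i]?) h
      simpa [ini, hi] using h3
    · intro h
      exact List.map_congr_left fun i hi => h i (List.mem_range.1 hi)
  refine mem_iUnion.2 ⟨⟨ini z n, by rw [h2]; exact hn⟩, ?_⟩
  rw [h2]
  exact PiNat.self_mem_cylinder z n

theorem exists_close {z : ℕ → ℕ} (hz : z ∈ ker A f) (n : ℕ) :
    ∃ a ∈ A, a ∈ closure (f '' (PiNat.cylinder z n ∩ ker A f)) := by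
  by_contra hcon
  push Not at hcon
  have h1 : Sep A f (PiNat.cylinder z n ∩ ker A f) :=
    Sep.of_closure (disjoint_left.2 fun a ha haA => hcon a haA ha)
  refine hz n ((h1.union (sep_ker_compl (A := A) (f := f))).mono ?_)
  intro y hy
  by_cases h : y ∈ ker A f
  · exact Or.inl ⟨hy, h⟩
  · exact Or.inr h

/-- Nodes of the scheme. -/
structure Node (A : Set (ℕ → ℕ)) (f : (ℕ → ℕ) → (ℕ → ℕ)) where
  /-- the centre of the cylinder -/
  z : ℕ → ℕ
  /-- the length of the cylinder -/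
  n : ℕ
  /-- the point of `A` -/
  a : ℕ → ℕ
  hz : z ∈ ker A f
  ha : a ∈ A
  hc : a ∈ closure (f '' (PiNat.cylinder z n ∩ ker A f))

theorem exists_child (hf : Continuous f) (s : Node A f) (i : ℕ) : ∃ s' : Node A f,
    PiNat.cylinder s'.z s'.n ⊆ PiNat.cylinder s.z s.n ∧ s.n < s'.n ∧
      ∀ y ∈ PiNat.cylinder s'.z s'.n, ∀ k < i, f y k = s.a k := by
  obtain ⟨_, h1, ⟨z', ⟨hz1, hz2⟩, rfl⟩⟩ :=
    mem_closure_iff.1 s.hc _ (isOpen_agree s.a i) (fun _ _ => rfl)
  obtain ⟨n', hn, hn'⟩ := cont_cyl hf z' s.a i h1 s.n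
  obtain ⟨a', ha', hc'⟩ := exists_close hz2 n'
  refine ⟨⟨z', n', a', hz2, ha', hc'⟩, ?_, hn, hn'⟩
  have h2 : PiNat.cylinder z' s.n = PiNat.cylinder s.z s.n := PiNat.mem_cylinder_iff_eq.1 hz1
  exact (PiNat.cylinder_anti z' hn.le).trans h2.le

/-- The Hurewicz scheme. -/
theorem scheme (hA : ¬ IsGδ A) (hAn : AnalyticSet Aᶜ) : ∃ x : List ℕ → (ℕ → ℕ),
    (∀ u, x u ∈ A) ∧ (∀ u v i, ∀ k < i, x (u ++ i :: v) k = x u k) ∧
    ∀ b : ℕ → ℕ, ∃ z ∉ A, ∀ j, ∃ K, ∀ k < j, x (ini b K) k = z k := by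
  rw [AnalyticSet] at hAn
  rcases hAn with h0 | ⟨f, hf, hr⟩
  · exfalso
    rw [compl_empty_iff] at h0
    exact hA (h0 ▸ IsGδ.univ)
  have hne : (ker A f).Nonempty := by
    by_contra hcon
    rw [not_nonempty_iff_eq_empty] at hcon
    have h1 := sep_ker_compl (A := A) (f := f)
    rw [hcon, compl_empty] at h1
    obtain ⟨G, h2, h3, h4⟩ := h1
    apply hA
    have h5 : A = G := by
      refine subset_antisymm h3 fun w hw => ?_
      by_contra hwA
      have : w ∈ range f := by rw [hr]; exact hwA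
      obtain ⟨z, rfl⟩ := this
      exact h4 z (mem_univ z) hw
    rw [h5]
    exact h2
  obtain ⟨z0, hz0⟩ := hne
  obtain ⟨a0, ha0, hc0⟩ := exists_close hz0 0
  choose ch hch1 hch2 hch3 using exists_child (A := A) (f := f) hf
  let s0 : Node A f := ⟨z0, 0, a0, hz0, ha0, hc0⟩
  let st : List ℕ → Node A f := fun u => u.foldl ch s0
  have hst : ∀ u i, st (u ++ [i]) = ch (st u) i := fun u i => by
    simp [st, List.foldl_append]
  have hmono : ∀ v u, PiNat.cylinder (st (u ++ v)).z (st (u ++ v)).n ⊆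
      PiNat.cylinder (st u).z (st u).n := by
    intro v
    induction v with
    | nil => intro u; simp
    | cons i v ih =>
      intro u
      have h1 : u ++ i :: v = (u ++ [i]) ++ v := by simp
      rw [h1]
      refine (ih (u ++ [i])).trans ?_
      rw [hst]
      exact hch1 _ _
  have hcl : ∀ u, (st u).a ∈ closure (f '' (PiNat.cylinder (st u).z (st u).n)) := fun u =>
    closure_mono (image_mono inter_subset_left) (st u).hc
  refine ⟨fun u => (st u).a, fun u => (st u).ha, ?_, ?_⟩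
  · intro u v i
    have h1 : u ++ i :: v = (u ++ [i]) ++ v := by simp
    have h2 : (st (u ++ i :: v)).a ∈ {w : ℕ → ℕ | ∀ k < i, w k = (st u).a k} := by
      refine closure_minimal ?_ (isClosed_agree _ _) (hcl _)
      rintro _ ⟨y, hy, rfl⟩
      rw [h1] at hy
      have h3 := hmono v (u ++ [i]) hy
      rw [hst] at h3
      exact hch3 (st u) i y h3
    exact h2
  · intro b
    have hn : ∀ k, k ≤ (st (ini b k)).n := by
      intro k
      induction k with
      | zero => exact Nat.zero_le _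
      | succ k ih =>
        rw [ini_succ, hst]
        have := hch2 (st (ini b k)) (b k)
        omega
    have hnest : ∀ k l, k ≤ l → PiNat.cylinder (st (ini b l)).z (st (ini b l)).n ⊆
        PiNat.cylinder (st (ini b k)).z (st (ini b k)).n := by
      intro k l hkl
      induction l, hkl using Nat.le_induction with
      | base => exact Subset.rfl
      | succ l _ ih =>
        rw [ini_succ, hst]
        exact (hch1 _ _).trans ih
    let zz : ℕ → ℕ := fun i => (st (ini b (i + 1))).z i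
    have hzz : ∀ k, zz ∈ PiNat.cylinder (st (ini b k)).z (st (ini b k)).n := by
      intro k
      rw [PiNat.mem_cylinder_iff]
      intro i hi
      show (st (ini b (i + 1))).z i = _
      rcases le_total k (i + 1) with h | h
      · have h1 := hnest k (i + 1) h (PiNat.self_mem_cylinder _ _)
        exact (PiNat.mem_cylinder_iff.1 h1) i hi
      · have h1 := hnest (i + 1) k h (PiNat.self_mem_cylinder _ _)
        exact ((PiNat.mem_cylinder_iff.1 h1) i
          (lt_of_lt_of_le (Nat.lt_succ_self i) (hn (i + 1)))).symm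
    refine ⟨f zz, ?_, fun j => ?_⟩
    · have : f zz ∈ range f := mem_range_self _
      rw [hr] at this
      exact this
    · obtain ⟨n, -, hn'⟩ := cont_cyl hf zz (f zz) j (fun _ _ => rfl) 0
      refine ⟨n, ?_⟩
      have h2 : (st (ini b n)).a ∈ {w : ℕ → ℕ | ∀ k < j, w k = f zz k} := by
        refine closure_minimal ?_ (isClosed_agree _ _) (hcl _)
        rintro _ ⟨y, hy, rfl⟩
        have h3 : PiNat.cylinder zz (st (ini b n)).n =
            PiNat.cylinder (st (ini b n)).z (st (ini b n)).n := PiNat.mem_cylinder_iff_eq.1 (hzz n)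
        rw [← h3] at hy
        exact hn' y (PiNat.cylinder_anti zz (hn n) hy)
      exact h2

end Pool.Agent.X218.HU
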