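import Mathlib
import Pool.Agent.X218.HU.Scheme
import Pool.Agent.H534R3.NonBorel

/-!
# Borel covering conditions are `Gδ`
-/

set_option linter.style.haveILetI false

open Set Filter Topology MeasureTheory

namespace Pool.Agent.X218.HU

variable {X : Type*} [TopologicalSpace X] (U : ℕ → Set X)

/-- The codes of open sets that contain `U k`. -/
def Cov (k : ℕ) : Set (ℕ → ℕ) := {y | U k ⊆ ⋃ n, U (y n)}

/-- `u` and all its initial segments belong to `t`. -/
def InTree (t : List ℕ → Bool) (u : List ℕ) : Prop := ∀ v, v <+: u → t v = true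

/-- The set attached to `t` and the scheme `x`. -/
def Dset (x : List ℕ → (ℕ → ℕ)) (t : List ℕ → Bool) (m : ℕ) : Prop :=
  ∃ (F : Finset ℕ) (j : ℕ), (∀ u, InTree t u → ∃ i < j, x u i ∈ F) ∧ U m ⊆ ⋂ n ∈ F, U n

theorem measurable_Dset (x : List ℕ → (ℕ → ℕ)) (m : ℕ) :
    MeasurableSet {t : List ℕ → Bool | Dset U x t m} := by
  have h1 : {t : List ℕ → Bool | Dset U x t m} =
      ⋃ F : Finset ℕ, ⋃ j : ℕ, ⋃ (_ : U m ⊆ ⋂ n ∈ F, U n), ⋂ u : List ℕ,
        {t : List ℕ → Bool | InTree t u → ∃ i < j, x u i ∈ F} := by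
    ext t
    simp only [mem_setOf_eq, Dset, mem_iUnion, mem_iInter, exists_prop]
    constructor
    · rintro ⟨F, j, h2, h3⟩
      exact ⟨F, j, h3, h2⟩
    · rintro ⟨F, j, h3, h2⟩
      exact ⟨F, j, h2, h3⟩
  rw [h1]
  refine MeasurableSet.iUnion fun F => MeasurableSet.iUnion fun j => MeasurableSet.iUnion fun _ =>
    MeasurableSet.iInter fun u => ?_
  have h2 : MeasurableSet {t : List ℕ → Bool | InTree t u} := by
    have : {t : List ℕ → Bool | InTree t u} =
        ⋂ v : List ℕ, ⋂ (_ : v <+: u), {t : List ℕ → Bool | t v = true} := by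
      ext t
      simp [InTree]
    rw [this]
    exact MeasurableSet.iInter fun v => MeasurableSet.iInter fun _ =>
      Pool.Agent.H534R3.NonBorel.mset v true
  by_cases h3 : ∃ i < j, x u i ∈ F
  · have : {t : List ℕ → Bool | InTree t u → ∃ i < j, x u i ∈ F} = univ := by
      ext t; simp [h3]
    rw [this]
    exact MeasurableSet.univ
  · have : {t : List ℕ → Bool | InTree t u → ∃ i < j, x u i ∈ F} =
        {t : List ℕ → Bool | InTree t u}ᶜ := by
      ext t; simp [h3]
    rw [this]
    exact h2.compl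

/-- Enumeration of a set of naturals. -/
noncomputable def enum (d : ℕ → Bool) (i : ℕ) : ℕ := if d i = true then i else sInf {m | d m = true}

theorem measurable_enum : Measurable (enum : (ℕ → Bool) → (ℕ → ℕ)) := by
  refine measurable_pi_lambda _ fun i => ?_
  refine Measurable.ite (Pool.Agent.H534R3.NonBorel.mset i true) measurable_const ?_
  refine measurable_to_countable' fun a => ?_
  have h1 : (fun d : ℕ → Bool => sInf {m | d m = true}) ⁻¹' {a} =
      ({d | d a = true} ∩ ⋂ b : ℕ, ⋂ (_ : b < a), {d | d b = true}ᶜ) ∪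
        (if a = 0 then ⋂ b : ℕ, {d | d b = true}ᶜ else ∅) := by
    ext d
    simp only [mem_preimage, mem_singleton_iff, mem_union, mem_inter_iff, mem_setOf_eq, mem_iInter,
      mem_compl_iff]
    constructor
    · intro h
      by_cases hne : ∃ m, d m = true
      · left
        have h2 : sInf {m | d m = true} ∈ {m | d m = true} := Nat.sInf_mem hne
        rw [h] at h2
        refine ⟨h2, fun b hb h3 => ?_⟩
        have := Nat.sInf_le (s := {m | d m = true}) h3
        omega
      · right
        push Not at hne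
        have h2 : {m | d m = true} = ∅ := by
          ext m; simpa using hne m
        rw [h2, Nat.sInf_empty] at h
        rw [if_pos h.symm]
        simpa using hne
    · rintro (⟨h2, h3⟩ | h2)
      · refine le_antisymm (Nat.sInf_le h2) ?_
        by_contra hcon
        push Not at hcon
        have h4 : sInf {m | d m = true} ∈ {m | d m = true} := Nat.sInf_mem ⟨a, h2⟩
        exact h3 _ hcon h4
      · by_cases ha : a = 0
        · rw [if_pos ha] at h2
          have h3 : {m | d m = true} = ∅ := by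
            ext m
            have := mem_iInter.1 h2 m
            simpa using this
          rw [h3, Nat.sInf_empty, ha]
        · rw [if_neg ha] at h2
          exact absurd h2 (notMem_empty _)
  rw [h1]
  refine MeasurableSet.union ?_ ?_
  · exact (Pool.Agent.H534R3.NonBorel.mset a true).inter (MeasurableSet.iInter fun b =>
      MeasurableSet.iInter fun _ => (Pool.Agent.H534R3.NonBorel.mset b true).compl)
  · split_ifs
    · exact MeasurableSet.iInter fun b => (Pool.Agent.H534R3.NonBorel.mset b true).compl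
    · exact MeasurableSet.empty

theorem iUnion_enum {d : ℕ → Bool} (hd : ∃ m, d m = true) :
    ⋃ i, U (enum d i) = ⋃ m, ⋃ (_ : d m = true), U m := by
  ext p
  simp only [mem_iUnion]
  constructor
  · rintro ⟨i, hi⟩
    unfold enum at hi
    by_cases h : d i = true
    · rw [if_pos h] at hi
      exact ⟨i, h, hi⟩
    · rw [if_neg h] at hi
      exact ⟨_, Nat.sInf_mem hd, hi⟩
  · rintro ⟨m, hm, hp⟩
    refine ⟨m, ?_⟩
    unfold enum
    rw [if_pos hm]
    exact hp

variable {U}

theorem ini_eq_br (b : ℕ → ℕ) (k : ℕ) : ini b k = Pool.Agent.H534R3.NonBorel.br b k := rfl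

theorem prefix_ini {b : ℕ → ℕ} {k : ℕ} {v : List ℕ} (h : v <+: ini b k) : ∃ l, v = ini b l := by
  refine ⟨v.length, ?_⟩
  have h1 := List.prefix_iff_eq_take.1 h
  have hl : v.length ≤ k := by
    have := h.length_le
    simpa [ini] using this
  conv_lhs => rw [h1]
  unfold ini
  rw [← List.map_take, List.take_range, min_eq_left hl]

/-- Covering conditions which are Borel are `Gδ`. -/
theorem isGδ_of_borel (hU : TopologicalSpace.IsTopologicalBasis (range U)) (k : ℕ)
    (hB : MeasurableSet (Cov U k)) : IsGδ (Cov U k) := by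
  classical
  by_contra hcon
  obtain ⟨x, hx1, hx2, hx3⟩ := scheme hcon hB.compl.analyticSet
  have hUk : (U k).Nonempty := by
    by_contra h
    rw [not_nonempty_iff_eq_empty] at h
    apply hcon
    have : Cov U k = univ := by
      ext y; simp [Cov, h]
    rw [this]
    exact IsGδ.univ
  -- trees with a branch
  have key1 : ∀ t : List ℕ → Bool, (∃ b : ℕ → ℕ, ∀ n, t (ini b n) = true) →
      ¬ U k ⊆ ⋃ m, ⋃ (_ : Dset U x t m), U m := by
    rintro t ⟨b, hb⟩ hsub
    obtain ⟨z, hz, hz'⟩ := hx3 b
    have hz2 : ¬ U k ⊆ ⋃ n, U (z n) := hz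
    rw [not_subset] at hz2
    obtain ⟨p, hp, hpz⟩ := hz2
    obtain ⟨m, hm⟩ := mem_iUnion.1 (hsub hp)
    obtain ⟨⟨F, j, hF1, hF2⟩, hpm⟩ := mem_iUnion.1 hm
    obtain ⟨K, hK⟩ := hz' j
    obtain ⟨i, hij, hiF⟩ := hF1 (ini b K) (fun v hv => by
      obtain ⟨l, rfl⟩ := prefix_ini hv
      exact hb l)
    rw [hK i hij] at hiF
    exact hpz (mem_iUnion.2 ⟨i, mem_iInter₂.1 (hF2 hpm) _ hiF⟩)
  -- trees without a branch
  have key2 : ∀ t : List ℕ → Bool, (¬ ∃ b : ℕ → ℕ, ∀ n, t (ini b n) = true) →
      U k ⊆ ⋃ m, ⋃ (_ : Dset U x t m), U m := by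
    intro t ht p hp
    let Q : List ℕ → Prop := fun u => ∃ (F : Finset ℕ) (j : ℕ), (∀ n ∈ F, p ∈ U n) ∧
      ∀ v, InTree t (u ++ v) → ∃ i < j, x (u ++ v) i ∈ F
    have hstep : ∀ u, ¬ Q u → ∃ i, ¬ Q (u ++ [i]) := by
      intro u hu
      by_contra hall
      push Not at hall
      apply hu
      choose F j hF hj using hall
      obtain ⟨i0, hi0⟩ := mem_iUnion.1 (show p ∈ ⋃ n, U (x u n) from hx1 u hp)
      refine ⟨{x u i0} ∪ (Finset.range (i0 + 1)).biUnion F,
        (Finset.range (i0 + 1)).sup j + (i0 + 1), ?_, ?_⟩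
      · intro n hn
        rcases Finset.mem_union.1 hn with h | h
        · rw [Finset.mem_singleton.1 h]
          exact hi0
        · obtain ⟨i, -, hi⟩ := Finset.mem_biUnion.1 h
          exact hF i n hi
      · intro v hv
        rcases v with _ | ⟨i, v⟩
        · refine ⟨i0, by omega, ?_⟩
          simp
        · rcases lt_or_ge i0 i with h | h
          · refine ⟨i0, by omega, ?_⟩
            rw [hx2 u v i i0 h]
            simp
          · have h1 : u ++ i :: v = (u ++ [i]) ++ v := by simp
            rw [h1] at hv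
            obtain ⟨l, hl1, hl2⟩ := hj i v hv
            have h2 : j i ≤ (Finset.range (i0 + 1)).sup j :=
              Finset.le_sup (Finset.mem_range.2 (Nat.lt_succ_of_le h))
            refine ⟨l, by omega, ?_⟩
            rw [h1]
            exact Finset.mem_union_right _
              (Finset.mem_biUnion.2 ⟨i, Finset.mem_range.2 (Nat.lt_succ_of_le h), hl2⟩)
    have hQ : Q [] := by
      by_contra hQ0
      choose! g hg using hstep
      let us : ℕ → List ℕ := fun n => Nat.rec [] (fun _ u => u ++ [g u]) n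
      have hus : ∀ n, us (n + 1) = us n ++ [g (us n)] := fun n => rfl
      have hnQ : ∀ n, ¬ Q (us n) := by
        intro n
        induction n with
        | zero => exact hQ0
        | succ n ih => rw [hus]; exact hg _ ih
      apply ht
      refine ⟨fun n => g (us n), fun n => ?_⟩
      have h1 : ∀ n, ini (fun n => g (us n)) n = us n := by
        intro n
        induction n with
        | zero => rfl
        | succ n ih => rw [ini_succ, ih, hus]
      rw [h1]
      by_contra h2
      apply hnQ n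
      refine ⟨∅, 0, by simp, fun v hv => ?_⟩
      exact absurd (hv (us n) (List.prefix_append _ _)) h2
    obtain ⟨F, j, hF, hj⟩ := hQ
    have ho : IsOpen (⋂ n ∈ F, U n) :=
      isOpen_biInter_finset fun n _ => hU.isOpen (mem_range_self n)
    obtain ⟨_, ⟨m, rfl⟩, hm1, hm2⟩ :=
      hU.exists_subset_of_mem_open (show p ∈ ⋂ n ∈ F, U n from mem_iInter₂.2 hF) ho
    exact mem_iUnion.2 ⟨m, mem_iUnion.2 ⟨⟨F, j, fun u hu => hj u hu, hm2⟩, hm1⟩⟩
  -- the reduction
  let dd : (List ℕ → Bool) → (ℕ → Bool) := fun t m => decide (Dset U x t m)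
  have hdd : Measurable dd := by
    refine measurable_pi_lambda _ fun m => ?_
    refine measurable_to_bool ?_
    have : (fun t => dd t m) ⁻¹' {true} = {t | Dset U x t m} := by
      ext t; simp [dd]
    rw [this]
    exact measurable_Dset U x m
  have hred : {t : List ℕ → Bool | ∃ b : ℕ → ℕ, ∀ n, t (ini b n) = true} =
      ({t | ∃ m, Dset U x t m} ∩ (fun t => enum (dd t)) ⁻¹' (Cov U k))ᶜ := by
    ext t
    have hU2 : (⋃ m, ⋃ (_ : Dset U x t m), U m) = ⋃ m, ⋃ (_ : dd t m = true), U m := by
      simp [dd]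
    constructor
    · rintro hb ⟨h1, h2⟩
      obtain ⟨m, hm⟩ := h1
      refine key1 t hb ?_
      have h3 : U k ⊆ ⋃ i, U (enum (dd t) i) := h2
      rwa [iUnion_enum U ⟨m, by simp [dd, hm]⟩, ← hU2] at h3
    · intro h
      by_contra hb
      have h1 := key2 t hb
      obtain ⟨p, hp⟩ := hUk
      obtain ⟨m, hm⟩ := mem_iUnion.1 (h1 hp)
      obtain ⟨hm1, -⟩ := mem_iUnion.1 hm
      refine h ⟨⟨m, hm1⟩, ?_⟩
      show U k ⊆ ⋃ i, U (enum (dd t) i)
      rw [iUnion_enum U ⟨m, by simp [dd, hm1]⟩, ← hU2]
      exact h1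
  refine Pool.Agent.H534R3.NonBorel.illFounded_not_measurable ?_
  have h5 : {t : List ℕ → Bool | ∃ f : ℕ → ℕ, ∀ n, t (Pool.Agent.H534R3.NonBorel.br f n) = true} =
      {t : List ℕ → Bool | ∃ b : ℕ → ℕ, ∀ n, t (ini b n) = true} := rfl
  rw [h5, hred]
  refine (MeasurableSet.inter ?_ ?_).compl
  · have : {t : List ℕ → Bool | ∃ m, Dset U x t m} = ⋃ m, {t | Dset U x t m} := by
      ext t; simp
    rw [this]
    exact MeasurableSet.iUnion fun m => measurable_Dset U x m
  · exact (measurable_enum.comp hdd) hB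

end Pool.Agent.X218.HU
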